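import Mathlib.Combinatorics.SimpleGraph.DegreeSum
import Mathlib.Combinatorics.Enumerative.DoubleCounting
import Mathlib.Data.Set.Card
import Mathlib.Tactic

/-! Counting lemmas for graphs in which every pair has many paths of length at most two. -/

namespace Pool.Agent.MP_1dbd31_co.h49

open Finset
open scoped Classical

variable {V : Type} [Fintype V]

/-- neighbourhood -/
noncomputable def nb (G : SimpleGraph V) (x : V) : Finset V := univ.filter fun y => G.Adj x y

/-- number of paths of length at most two -/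
noncomputable def tt (G : SimpleGraph V) (x y : V) : ℕ :=
  (if G.Adj x y then 1 else 0) + (nb G x ∩ nb G y).card

theorem mem_nb {G : SimpleGraph V} {x y : V} : y ∈ nb G x ↔ G.Adj x y := by simp [nb]

theorem tt_le (G : SimpleGraph V) (x y : V) : tt G x y ≤ (nb G x).card := by
  unfold tt
  split_ifs with h
  · have : nb G x ∩ nb G y ⊆ (nb G x).erase y := by
      intro z hz
      rw [mem_inter, mem_nb, mem_nb] at hz
      exact mem_erase.2 ⟨hz.2.ne', mem_nb.2 hz.1⟩
    have h1 := card_le_card this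
    have h2 := card_erase_add_one (mem_nb.2 h)
    omega
  · simpa using card_le_card (inter_subset_left (s₁ := nb G x) (s₂ := nb G y))

theorem tt_mono {G H : SimpleGraph V} (h : G ≤ H) (x y : V) : tt G x y ≤ tt H x y := by
  unfold tt
  have h1 : (nb G x ∩ nb G y).card ≤ (nb H x ∩ nb H y).card := by
    apply card_le_card
    intro z hz
    rw [mem_inter, mem_nb, mem_nb] at hz ⊢
    exact ⟨h hz.1, h hz.2⟩
  have h2 : (if G.Adj x y then 1 else 0) ≤ (if H.Adj x y then 1 else 0) := by
    by_cases hg : G.Adj x y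
    · simp [hg, h hg]
    · simp [hg]
  omega

theorem sum_tt (G : SimpleGraph V) (x : V) :
    ∑ y ∈ univ.erase x, tt G x y = ∑ z ∈ nb G x, (nb G z).card := by
  have h1 : ∑ y, (nb G x ∩ nb G y).card = ∑ z ∈ nb G x, (nb G z).card := by
    have := sum_card_bipartiteAbove_eq_sum_card_bipartiteBelow (s := univ) (t := nb G x)
      (fun y z => G.Adj z y)
    convert this using 2 with y _ z _
    · congr 1
      ext z
      simp [mem_nb, bipartiteAbove, G.adj_comm]
    · congr 1
  have h2 : ∑ y ∈ univ.erase x, (if G.Adj x y then 1 else 0) = (nb G x).card := by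
    rw [sum_erase _ (by simp), nb, card_filter]
  have h3 := add_sum_erase univ (fun y => (nb G x ∩ nb G y).card) (mem_univ x)
  simp only [inter_self] at h3
  unfold tt
  rw [sum_add_distrib, h2]
  omega

/-- the counting bound at a vertex of least degree -/
theorem min_bd (G : SimpleGraph V) (k : ℕ) (hG : ∀ x y, x ≠ y → k ≤ tt G x y)
    (h2 : 2 ≤ Fintype.card V) :
    ∃ d : ℕ, k ≤ d ∧ d ≤ Fintype.card V ∧ (∀ x, d ≤ (nb G x).card) ∧
      k * (Fintype.card V - 1) + (Fintype.card V - d) * d ≤ ∑ x, (nb G x).card := by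
  have : Nontrivial V := Fintype.one_lt_card_iff_nontrivial.1 h2
  obtain ⟨x, hx⟩ := Finite.exists_min fun x => (nb G x).card
  obtain ⟨y, hy⟩ := exists_ne x
  refine ⟨_, (hG x y hy.symm).trans (tt_le G x y), card_le_univ _, hx, ?_⟩
  have h3 : (univ.erase x).card * k ≤ ∑ y ∈ univ.erase x, tt G x y := by
    rw [← smul_eq_mul]
    exact card_nsmul_le_sum _ _ _ fun y hy => hG x y (ne_of_mem_erase hy).symm
  rw [card_erase_of_mem (mem_univ x), card_univ, sum_tt] at h3
  have h4 : (nb G x)ᶜ.card * (nb G x).card ≤ ∑ z ∈ (nb G x)ᶜ, (nb G z).card := by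
    rw [← smul_eq_mul]
    exact card_nsmul_le_sum _ _ _ fun y _ => hx y
  rw [card_compl] at h4
  rw [← sum_add_sum_compl (nb G x), mul_comm k]
  omega

theorem lower (G : SimpleGraph V) (n k δ : ℕ) (hn : Fintype.card V = n)
    (hG : ∀ x y, x ≠ y → k ≤ tt G x y) (h2 : 2 ≤ n)
    (h3 : ((δ : ℤ) - 1) ^ 2 + n ≤ k * (n - 1)) (h4 : (n : ℤ) * δ ≤ k * (2 * n - 1 - k)) :
    n * δ ≤ ∑ x, (nb G x).card := by
  obtain ⟨d, d1, d2, d3, d4⟩ := min_bd G k hG (hn ▸ h2)
  rw [hn] at d2 d4
  by_cases hd : δ ≤ d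
  · have : (univ : Finset V).card * δ ≤ ∑ x, (nb G x).card := by
      rw [← smul_eq_mul]
      exact card_nsmul_le_sum _ _ _ fun y _ => hd.trans (d3 y)
    rwa [card_univ, hn] at this
  · refine le_trans ?_ d4
    have e1 : 1 ≤ n := by omega
    zify [e1, d2]
    have a1 : (k : ℤ) ≤ d := by exact_mod_cast d1
    have a2 : (d : ℤ) ≤ δ - 1 := by omega
    by_cases hc : (d : ℤ) + k ≤ n
    · nlinarith [mul_nonneg (sub_nonneg.2 a1) (sub_nonneg.2 hc)]
    · have a3 : (0 : ℤ) ≤ d + (δ - 1) - n := by omega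
      nlinarith [mul_nonneg (sub_nonneg.2 a2) a3]

theorem nb_compl (H : SimpleGraph V) (x : V) :
    (nb Hᶜ x).card + (nb H x).card + 1 = Fintype.card V := by
  have : nb Hᶜ x = (insert x (nb H x))ᶜ := by
    ext y
    simp [mem_nb, SimpleGraph.compl_adj, eq_comm]
  rw [this, card_compl, card_insert_of_notMem (by simp [mem_nb])]
  have := card_le_univ (insert x (nb H x))
  rw [card_insert_of_notMem (by simp [mem_nb])] at this
  omega

theorem tt_compl (H : SimpleGraph V) {x y : V} (h : x ≠ y) :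
    Fintype.card V + tt H x y ≤ tt Hᶜ x y + (nb H x).card + (nb H y).card + 1 := by
  have h1 := card_union_add_card_inter (nb H x) (nb H y)
  unfold tt
  by_cases ha : H.Adj x y
  · have : nb Hᶜ x ∩ nb Hᶜ y = (nb H x ∪ nb H y)ᶜ := by
      ext z
      simp only [mem_inter, mem_nb, SimpleGraph.compl_adj, mem_compl, mem_union, not_or]
      constructor
      · exact fun h => ⟨h.1.2, h.2.2⟩
      · rintro ⟨a, b⟩
        exact ⟨⟨fun e => b (e ▸ ha.symm), a⟩, fun e => a (e ▸ ha), b⟩
    rw [this, card_compl, if_pos ha]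
    have := card_le_univ (nb H x ∪ nb H y)
    omega
  · have : nb Hᶜ x ∩ nb Hᶜ y = (insert x (insert y (nb H x ∪ nb H y)))ᶜ := by
      ext z
      simp only [mem_inter, mem_nb, SimpleGraph.compl_adj, mem_compl, mem_union, mem_insert,
        not_or]
      tauto
    rw [this, card_compl, if_neg ha, if_pos ((SimpleGraph.compl_adj _ _ _).2 ⟨h, ha⟩)]
    have a := card_insert_le x (insert y (nb H x ∪ nb H y))
    have b := card_insert_le y (nb H x ∪ nb H y)
    omega

theorem sum_nb (G : SimpleGraph V) : ∑ x, (nb G x).card = 2 * G.edgeSet.ncard := by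
  have := G.sum_degrees_eq_twice_card_edges
  rw [Set.ncard_eq_toFinset_card']
  convert this using 2 with x
  · rw [← SimpleGraph.card_neighborFinset_eq_degree]
    congr 1
    ext y
    simp [mem_nb]
  · rfl

end Pool.Agent.MP_1dbd31_co.h49
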