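import Pool.Agent.MP_1dbd31_co.h49.Fill

/-! The extremal function and the reduction of its plateau values to a sparse graph. -/

namespace Pool.Agent.MP_1dbd31_co.h49

open Finset
open scoped Classical

/-- least number of edges of a graph on `n` vertices in which any two distinct vertices are
joined by at least `k` paths of length at most two -/
noncomputable def ghat (n k : ℕ) : ℕ :=
  sInf {e | ∃ G : SimpleGraph (Fin n),
    (∀ x y, x ≠ y → k ≤ (if G.Adj x y then 1 else 0) + (G.commonNeighbors x y).ncard) ∧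
      G.edgeSet.ncard = e}

theorem tt_eq {V : Type} [Fintype V] (G : SimpleGraph V) (x y : V) :
    tt G x y = (if G.Adj x y then 1 else 0) + (G.commonNeighbors x y).ncard := by
  unfold tt
  congr 1
  rw [← Set.ncard_coe_finset]
  congr 1
  ext z
  simp [mem_nb, SimpleGraph.mem_commonNeighbors]

theorem ghat_ge {n k e : ℕ} (hk : k + 1 ≤ n)
    (h : ∀ G : SimpleGraph (Fin n), (∀ x y, x ≠ y → k ≤ tt G x y) → e ≤ G.edgeSet.ncard) :
    e ≤ ghat n k := by
  refine le_csInf ⟨_, ⊤, fun x y hxy => ?_, rfl⟩ ?_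
  · have := tt_compl (⊥ : SimpleGraph (Fin n)) hxy
    rw [compl_bot, tt_eq (⊤ : SimpleGraph (Fin n))] at this
    have e : ∀ z : Fin n, (nb (⊥ : SimpleGraph (Fin n)) z).card = 0 := by simp [nb]
    rw [e, e, Fintype.card_fin] at this
    omega
  · rintro _ ⟨G, hG, rfl⟩
    exact h G fun x y hxy => tt_eq G x y ▸ hG x y hxy

theorem ghat_le {W : Type} [Fintype W] {n k : ℕ} (hn : Fintype.card W = n) (G : SimpleGraph W)
    (hG : ∀ x y, x ≠ y → k ≤ tt G x y) : 2 * ghat n k ≤ ∑ x, (nb G x).card := by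
  have e : Fin n ≃ W := (Fintype.equivFinOfCardEq hn).symm
  have h1 : ∀ x, nb G (e x) = (nb (G.comap e) x).map e.toEmbedding := by
    intro x
    ext y
    simp [mem_nb, mem_map_equiv]
  have h2 : ∀ x y, tt (G.comap e) x y = tt G (e x) (e y) := by
    intro x y
    unfold tt
    rw [h1, h1, ← map_inter, card_map]
    refine congrArg₂ _ (by simp) (congrArg _ (Finset.ext fun z => ?_))
    simp only [mem_inter]
  have h3 : ghat n k ≤ (G.comap e).edgeSet.ncard :=
    Nat.sInf_le ⟨G.comap e, fun x y hxy => by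
      rw [← tt_eq, h2]
      exact hG _ _ (e.injective.ne hxy), rfl⟩
  rw [← e.sum_comp]
  simp only [h1, card_map]
  rw [sum_nb]
  omega

theorem core {W : Type} [Fintype W] (H : SimpleGraph W) {n k D l δ : ℕ} (hn : Fintype.card W = n)
    (ht : ∀ x y, x ≠ y → l ≤ tt H x y) (hd : ∀ x, (nb H x).card ≤ D)
    (hs : n * D ≤ ∑ x, (nb H x).card + 1) (hk : k + 2 * D + 1 = n + l) (hδ : δ + D + 1 = n)
    (hl : l ≤ 2 * D) (h3 : (D + 1) ^ 2 + l + 2 ≤ (l + 1) * n)
    (h4 : (2 * D - l) * (2 * D - l + 1) ≤ n * D) : ghat n k = (n * δ + 1) / 2 := by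
  have n2 : 2 ≤ n := by
    by_contra hc
    have : n = 1 := by omega
    subst this
    nlinarith
  have up : 2 * ghat n k ≤ n * δ + 1 := by
    refine (ghat_le hn Hᶜ fun x y hxy => ?_).trans ?_
    · have := tt_compl H hxy
      have := ht x y hxy
      have := hd x
      have := hd y
      omega
    · have : ∑ x, ((nb Hᶜ x).card + (nb H x).card + 1) = n * n := by
        simp [nb_compl, hn]
      rw [sum_add_distrib, sum_add_distrib, sum_const, card_univ, hn, smul_eq_mul] at this
      have e : n * n = n * δ + n * D + n * 1 := by rw [← hδ]; ring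
      omega
  have lo : (n * δ + 1) / 2 ≤ ghat n k := by
    refine ghat_ge (by omega) fun G hG => ?_
    have := lower G n k δ (Fintype.card_fin n) hG n2 ?_ ?_
    · rw [sum_nb] at this
      omega
    · have e1 : (δ : ℤ) = n - D - 1 := by omega
      have e2 : (k : ℤ) = n + l - 2 * D - 1 := by omega
      rw [e1, e2]
      zify at h3
      nlinarith
    · have e1 : (δ : ℤ) = n - D - 1 := by omega
      have e2 : (k : ℤ) = n + l - 2 * D - 1 := by omega
      rw [e1, e2]
      zify [hl] at h4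
      nlinarith
  omega

theorem core' {W : Type} [Fintype W] (H : SimpleGraph W) {n k D l δ g0 g1 : ℕ}
    (hn : Fintype.card W = n) (ht : ∀ x y, x ≠ y → l ≤ tt H x y)
    (h0 : ∀ x, (nb H x).card + g0 ≤ D) (h1 : ∀ x, D ≤ (nb H x).card + g1)
    (hs : D * g1 < (n - D) * g0 ∨ g1 = 0) (hk : k + 2 * D + 1 = n + l) (hδ : δ + D + 1 = n)
    (hl : l ≤ 2 * D) (h3 : (D + 1) ^ 2 + l + 2 ≤ (l + 1) * n)
    (h4 : (2 * D - l) * (2 * D - l + 1) ≤ n * D) : ghat n k = (n * δ + 1) / 2 := by
  rcases hs with hs | rfl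
  · obtain ⟨K, k0, k1, k2⟩ := fill H D g0 g1 h0 h1 (hn ▸ hs)
    exact core K hn (fun x y h => (ht x y h).trans (tt_mono k0 x y)) k1 (hn ▸ k2) hk hδ hl h3 h4
  · refine core H hn ht (fun x => by have := h0 x; omega) ?_ hk hδ hl h3 h4
    have : (univ : Finset W).card * D ≤ ∑ x, (nb H x).card := by
      rw [← smul_eq_mul]
      exact card_nsmul_le_sum _ _ _ fun y _ => h1 y
    rw [card_univ, hn] at this
    omega

end Pool.Agent.MP_1dbd31_co.h49
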