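import Pool.Agent.MP_1dbd31_co.h49.Wallis
import Mathlib.FieldTheory.Finite.GaloisField

/-! Plateau values near the parameters of a graph with constant codegree. -/

namespace Pool.Agent.MP_1dbd31_co.h49

open Finset
open scoped Classical

theorem endpt {n D l : ℕ} (h1 : 3 * D + 3 ≤ n) (h2 : 7 ≤ D) (h3 : l ≤ D)
    (h4 : (D + 1) ^ 2 + l + 2 ≤ (l + 1) * n) : (2 * D - l) * (2 * D - l + 1) ≤ n * D := by
  obtain ⟨M, hM⟩ : ∃ M, M + l = 2 * D := ⟨2 * D - l, by omega⟩
  rw [show 2 * D - l = M by omega]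
  by_cases c1 : 4 * D + 2 ≤ n
  · calc _ ≤ (2 * D) * (2 * D + 1) := Nat.mul_le_mul (by omega) (by omega)
      _ ≤ n * D := by nlinarith
  by_cases c2 : 7 * D ≤ 2 * n
  · have a : (l + 1) * n ≤ (l + 1) * (4 * D + 1) := Nat.mul_le_mul_left _ (by omega)
    have b : D + 2 < 4 * (l + 1) := by
      by_contra hc
      nlinarith
    have c : (4 * M) * (4 * M + 4) ≤ (7 * D + 1) * (7 * D + 5) :=
      Nat.mul_le_mul (by omega) (by omega)
    nlinarith
  · have a : (l + 1) * (2 * n) ≤ (l + 1) * (7 * D) := Nat.mul_le_mul_left _ (by omega)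
    have b : 2 * D + 4 < 7 * (l + 1) := by
      by_contra hc
      nlinarith
    have c : (7 * M) * (7 * M + 7) ≤ (12 * D + 2) * (12 * D + 9) :=
      Nat.mul_le_mul (by omega) (by omega)
    nlinarith

theorem design {P : Type} [Fintype P] (H : SimpleGraph P) {v K L w e g n k D δ : ℕ}
    (hv : Fintype.card P = v) (hK : ∀ a, (nb H a).card = K)
    (hL : ∀ a b, L ≤ (nb H a ∩ nb H b).card) (hq : K * K + L = L * v + K) (h7 : 7 ≤ K)
    (hw : 1 ≤ w) (he : e ≤ g) (hn : n = w * v + e) (hD : D = w * K + e + g)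
    (hk : k + 2 * D + 1 = n + w * L) (hδ : δ + D + 1 = n)
    (h3 : (D + 1) ^ 2 + w * L + 2 ≤ (w * L + 1) * n) : ghat n k = (n * δ + 1) / 2 := by
  have v0 : 0 < v := by
    by_contra hc
    have : v = 0 := by omega
    subst this
    nlinarith
  obtain ⟨o⟩ : Nonempty P := Fintype.card_pos_iff.1 (hv ▸ v0)
  have LK : L ≤ K := (hL o o).trans (by simp [hK])
  let π : (Fin w × P) ⊕ Fin e → P := Sum.elim Prod.snd fun _ => o
  have lo : ∀ (S : Finset P) (T : Finset ((Fin w × P) ⊕ Fin e)), (∀ x, π x ∈ S → x ∈ T) →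
      w * S.card ≤ T.card := by
    intro S T h
    have := card_le_card_of_injOn (s := (univ : Finset (Fin w)) ×ˢ S) (t := T) Sum.inl
      (fun x hx => h _ (by simpa [π] using hx)) Sum.inl_injective.injOn
    simpa using this
  have up : ∀ x, (nb (H.comap π) x).card ≤ w * K + e := by
    intro x
    have := card_disjSum ((univ : Finset (Fin w)) ×ˢ nb H (π x)) (univ : Finset (Fin e))
    rw [card_product, hK, card_univ, card_univ, Fintype.card_fin, Fintype.card_fin] at this
    rw [← this]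
    refine card_le_card fun y hy => ?_
    rcases y with y | y
    · simpa [mem_nb, π] using hy
    · simp
  have wK : K ≤ w * K := Nat.le_mul_of_pos_left _ hw
  have lD : w * L ≤ w * K := Nat.mul_le_mul_left _ LK
  have n3 : 3 * D + 3 ≤ n := by
    obtain ⟨t, rfl⟩ := Nat.exists_eq_add_of_le LK
    obtain ⟨u, rfl⟩ := Nat.exists_eq_add_of_le' hw
    have : (u + 1) ^ 2 * ((L + t) * (L + t) + L) = (u + 1) ^ 2 * (L * v + (L + t)) := by rw [hq]
    have a : (u + 1) * L * n + D ≤ D ^ 2 + (u + 1) * L := by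
      subst hn hD
      nlinarith [Nat.zero_le (u * t), Nat.zero_le (u * u * t), Nat.le_self_pow two_ne_zero (e + g),
        Nat.zero_le ((u + 1) * (L + t) * g), Nat.zero_le ((u + 1) * t * e),
        Nat.zero_le ((u + 1) * L * e)]
    nlinarith
  refine core' (H.comap π) (l := w * L) (g0 := g) (g1 := e + g) (by simp [hn, hv])
    (fun x y _ => ?_) (fun x => by have := up x; omega) (fun x => ?_) ?_ hk hδ (by omega) h3
    (endpt n3 (by omega) (by omega) h3)
  · refine le_trans ?_ (Nat.le_add_left _ _)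
    refine (Nat.mul_le_mul_left _ (hL (π x) (π y))).trans (lo _ _ fun z hz => ?_)
    simpa [mem_nb] using hz
  · have := lo (nb H (π x)) (nb (H.comap π) x) fun z hz => by simpa [mem_nb] using hz
    rw [hK] at this
    omega
  · rcases Nat.eq_zero_or_pos g with rfl | hg
    · exact Or.inr (by omega)
    · left
      calc D * (e + g) ≤ D * (2 * g) := Nat.mul_le_mul_left _ (by omega)
        _ = (2 * D) * g := by ring
        _ < _ := Nat.mul_lt_mul_of_pos_right (by omega) hg

theorem dense {q d N w e g n k D : ℕ} (hq : IsPrimePow q) (h3 : 3 ≤ q) (hd : 1 ≤ d)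
    (hN : (q - 1) * N + 1 = q ^ d) (hw : 1 ≤ w) (he : e ≤ g)
    (hn : n = w * q ^ (d + 1) * (q * N + 2) + e) (hD : D = w * q ^ d * (q * N + 1) + e + g)
    (hk : k + 2 * D + 1 = n + w * q ^ d * N)
    (h4 : (D + 1) ^ 2 + 1 ≤ (w * q ^ d * N + 1) * (n - 1)) :
    ghat n k = (n * (n - 1 - D) + 1) / 2 := by
  obtain ⟨p, m, pp, m0, rfl⟩ := (isPrimePow_nat_iff _).1 hq
  have : Fact p.Prime := ⟨pp⟩
  have : Fintype (GaloisField p m) := Fintype.ofFinite _
  have hc : Fintype.card (GaloisField p m) = p ^ m := by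
    rw [← Nat.card_eq_fintype_card, GaloisField.card p m m0.ne']
  obtain ⟨s, rfl⟩ := Nat.exists_eq_add_of_le' hd
  obtain ⟨P, _, H, a1, a2, a3⟩ := wallis (F := GaloisField p m) s
  rw [hc] at a1 a2 a3
  generalize p ^ m = q at *
  have e1 : ∑ i ∈ range (s + 1), q ^ i = N := by
    rw [Nat.geomSum_eq (by omega), ← hN, Nat.add_sub_cancel, Nat.mul_div_cancel_left _ (by omega)]
  have e2 : ∑ i ∈ range (s + 2), q ^ i = q * N + 1 := by
    rw [sum_range_succ', ← e1, mul_sum]
    simp [pow_succ']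
  rw [e2] at a1 a2
  rw [e1] at a3
  have Q3 : 3 ≤ q ^ (s + 1) := h3.trans (Nat.le_self_pow (by omega) q)
  have N1 : 1 ≤ N := by
    by_contra hc
    have : N = 0 := by omega
    subst this
    omega
  have n1 : 1 ≤ n := by
    by_contra hc
    have : n - 1 = 0 := by omega
    simp [this] at h4
  obtain ⟨t, rfl⟩ : ∃ t, q = t + 1 := ⟨q - 1, by omega⟩
  rw [Nat.add_sub_cancel] at hN
  have h5 : (D + 1) ^ 2 + w * (N * (t + 1) ^ (s + 1)) + 2
      ≤ (w * (N * (t + 1) ^ (s + 1)) + 1) * n := by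
    zify [n1] at h4 ⊢
    linarith
  have hq' : ((t + 1) * N + 1) * (t + 1) ^ (s + 1) * (((t + 1) * N + 1) * (t + 1) ^ (s + 1))
      + N * (t + 1) ^ (s + 1) = N * (t + 1) ^ (s + 1) * (((t + 1) * N + 1 + 1) * (t + 1) ^ (s + 2))
      + ((t + 1) * N + 1) * (t + 1) ^ (s + 1) := by
    rw [pow_succ _ (s + 1), ← hN]
    ring
  have Dn : D + 1 ≤ n := by
    by_contra hc
    have a : w * (N * (t + 1) ^ (s + 1)) ≤ D := by
      rw [hD]
      nlinarith [Nat.zero_le (w * (t + 1) ^ (s + 1) * t * N), Nat.zero_le (w * (t + 1) ^ (s + 1))]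
    nlinarith
  refine design H a1 a2 a3 hq' (by nlinarith) hw he (by rw [hn]; ring) (by rw [hD]; ring)
    (by rw [hk]; ring) (by omega) h5

/-- the inequality of `dense` holds when the three free parameters are small -/
theorem room {q d N w e g n D : ℕ} (hd : 1 ≤ d) (hN : (q - 1) * N + 1 = q ^ d) (hw : 1 ≤ w)
    (hn : n = w * q ^ (d + 1) * (q * N + 2) + e) (hD : D = w * q ^ d * (q * N + 1) + e + g)
    (h : w + 2 * e + 2 * g + 2 ≤ q) : (D + 1) ^ 2 + 1 ≤ (w * q ^ d * N + 1) * (n - 1) := by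
  have Q : q ≤ q ^ d := Nat.le_self_pow (by omega) q
  rw [pow_succ] at hn
  generalize q ^ d = y at *
  have n1 : 1 ≤ n := by
    rw [hn]
    have : 0 < w * (y * q) * (q * N + 2) := by
      have : 0 < q := by omega
      have : 0 < y := by omega
      positivity
    omega
  obtain ⟨s, hs⟩ : ∃ s, s = e + g := ⟨_, rfl⟩
  have q1 : 1 ≤ q := by omega
  zify [n1, q1] at *
  have a : (w : ℤ) * (y * (q * N + 1)) * (w + 2 * s + 2) ≤ w * (y * (q * N + 1)) * q := by
    gcongr
    linarith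
  have b : (w : ℤ) * (y * N) * 1 ≤ w * (y * N) * w := by gcongr
  have c : (1 : ℤ) * (q * q) ≤ w * (y * q) := by gcongr
  have c' : ((s : ℤ) + 1) ^ 2 + 2 ≤ q * q := by nlinarith [Int.natCast_nonneg s]
  have c0 : (0 : ℤ) ≤ w * (y * N) * e + e := by positivity
  have k : (y : ℤ) * (q * N + 1) * (y * (q * N + 1)) + y * N
      = y * N * (y * q * (q * N + 2)) + y * (q * N + 1) := by
    rw [← hN]
    ring
  have hD' : (D : ℤ) = w * (y * (q * N + 1)) + s := by rw [hD, hs]; ring
  rw [hD', hn]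
  nlinarith [congrArg (fun t => (w : ℤ) ^ 2 * t) k]

end Pool.Agent.MP_1dbd31_co.h49
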