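import Pool.Agent.MP_1dbd31_co.h49.Base
import Mathlib.Combinatorics.SimpleGraph.Operations

/-! Completion of a graph to an almost regular one by switching new edges. -/

namespace Pool.Agent.MP_1dbd31_co.h49

open Finset
open scoped Classical

variable {V : Type} [Fintype V]

theorem nb_add {H K : SimpleGraph V} {a b : V} (hab : a ≠ b) (hn : ¬ H.Adj a b)
    (h : ∀ c d, K.Adj c d ↔ H.Adj c d ∨ (c = a ∧ d = b) ∨ (c = b ∧ d = a)) (c : V) :
    (nb K c).card = (nb H c).card + (if c = a then 1 else 0) + (if c = b then 1 else 0) := by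
  by_cases h1 : c = a
  · subst h1
    have : nb K c = insert b (nb H c) := by
      ext d
      simp [mem_nb, h, hab, or_comm]
    rw [this, card_insert_of_notMem (by simpa [mem_nb] using hn)]
    simp [hab]
  · by_cases h2 : c = b
    · subst h2
      have : nb K c = insert a (nb H c) := by
        ext d
        simp [mem_nb, h, h1, or_comm]
      rw [this, card_insert_of_notMem (by simpa [mem_nb, H.adj_comm] using hn)]
      simp [h1]
    · have : nb K c = nb H c := by
        ext d
        simp [mem_nb, h, h1, h2]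
      simp [this, h1, h2]

theorem ex_add (H : SimpleGraph V) {a b : V} (hab : a ≠ b) :
    ∃ K : SimpleGraph V, ∀ c d, K.Adj c d ↔ H.Adj c d ∨ (c = a ∧ d = b) ∨ (c = b ∧ d = a) := by
  refine ⟨H ⊔ SimpleGraph.edge a b, fun c d => ?_⟩
  rw [SimpleGraph.sup_adj, SimpleGraph.edge_adj]
  constructor
  · rintro (h | h)
    · exact Or.inl h
    · exact Or.inr h.1
  · rintro (h | h)
    · exact Or.inl h
    · refine Or.inr ⟨h, ?_⟩
      rcases h with ⟨rfl, rfl⟩ | ⟨rfl, rfl⟩
      · exact hab
      · exact hab.symm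

theorem ex_del (H : SimpleGraph V) {a b : V} (hab : H.Adj a b) :
    ∃ K : SimpleGraph V, ¬ K.Adj a b ∧
      ∀ c d, H.Adj c d ↔ K.Adj c d ∨ (c = a ∧ d = b) ∨ (c = b ∧ d = a) := by
  refine ⟨H \ SimpleGraph.edge a b, by simp [SimpleGraph.edge_adj, hab.ne], fun c d => ?_⟩
  rw [SimpleGraph.sdiff_adj, SimpleGraph.edge_adj]
  constructor
  · intro h
    by_cases e : (c = a ∧ d = b) ∨ (c = b ∧ d = a)
    · exact Or.inr e
    · exact Or.inl ⟨h, fun e' => e e'.1⟩
  · rintro (h | ⟨rfl, rfl⟩ | ⟨rfl, rfl⟩)
    · exact h.1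
    · exact hab
    · exact hab.symm

theorem two_def (f : V → ℕ) (D : ℕ) (hf : ∀ x, f x ≤ D)
    (h : ∑ x, f x + 2 ≤ Fintype.card V * D) :
    ∃ u v, ∀ c, f c + (if c = u then 1 else 0) + (if c = v then 1 else 0) ≤ D := by
  have key : ∀ g : V → ℕ, (∀ x, g x ≤ D) → ∑ x, g x + 1 ≤ Fintype.card V * D →
      ∃ u, ∀ c, g c + (if c = u then 1 else 0) ≤ D := by
    intro g hg hs
    by_contra hc
    push Not at hc
    have : ∀ u, g u = D := by
      intro u
      obtain ⟨c, hc⟩ := hc u
      have := hg c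
      split_ifs at hc with e
      · subst e
        omega
      · omega
    simp [this] at hs
  obtain ⟨u, hu⟩ := key f hf (by omega)
  obtain ⟨v, hv⟩ := key (fun c => f c + if c = u then 1 else 0) hu (by
    rw [sum_add_distrib]
    simp only [sum_ite_eq', mem_univ, if_true]
    omega)
  exact ⟨u, v, hv⟩

theorem fill (H0 : SimpleGraph V) (D g0 g1 : ℕ) (h0 : ∀ x, (nb H0 x).card + g0 ≤ D)
    (h1 : ∀ x, D ≤ (nb H0 x).card + g1) (hs : D * g1 < (Fintype.card V - D) * g0) :
    ∃ H : SimpleGraph V, H0 ≤ H ∧ (∀ x, (nb H x).card ≤ D) ∧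
      Fintype.card V * D ≤ ∑ x, (nb H x).card + 1 := by
  obtain ⟨H, ⟨hH0, hHD⟩, hmax⟩ := Set.exists_max_image
    {H : SimpleGraph V | H0 ≤ H ∧ ∀ x, (nb H x).card ≤ D} (fun H => ∑ x, (nb H x).card)
    (Set.toFinite _) ⟨H0, le_rfl, fun x => by have := h0 x; omega⟩
  refine ⟨H, hH0, hHD, ?_⟩
  by_contra hc
  obtain ⟨u, v, huv⟩ := two_def (fun x => (nb H x).card) D hHD (by omega)
  -- no supergraph raises two degrees within the bound
  have no : ∀ (K : SimpleGraph V) (a b : V), H0 ≤ K →
      (∀ c, (nb K c).card = (nb H c).card + (if c = a then 1 else 0) + (if c = b then 1 else 0)) →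
      (∀ c, (nb H c).card + (if c = a then 1 else 0) + (if c = b then 1 else 0) ≤ D) → False := by
    intro K a b k0 k1 k2
    have := hmax K ⟨k0, fun c => (k1 c).le.trans (k2 c)⟩
    simp only [k1, sum_add_distrib, sum_ite_eq', mem_univ, if_true] at this
    omega
  have hu : (nb H u).card < D := by
    have := huv u
    simp only [if_true] at this
    omega
  have hv : (nb H v).card < D := by
    have := huv v
    simp only [if_true] at this
    omega
  have full : ∀ x, x ≠ u → ¬ H.Adj u x → (nb H x).card = D := by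
    intro x hx ha
    by_contra hne
    obtain ⟨K, hK⟩ := ex_add H hx.symm
    refine no K u x (fun c d h => (hK c d).2 (Or.inl (hH0 h))) (nb_add hx.symm ha hK) fun c => ?_
    have := hHD c
    have := hHD x
    split_ifs with e1 e2 e2
    · exact absurd (e2.symm.trans e1) hx
    · subst e1
      omega
    · subst e2
      omega
    · omega
  have sub : ∀ x, ((nb H x).filter fun y => ¬ H0.Adj x y).card + (nb H0 x).card
      = (nb H x).card := by
    intro x
    rw [← card_filter_add_card_filter_not (s := nb H x) (fun y => ¬ H0.Adj x y)]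
    congr 2
    ext y
    simp only [mem_filter, mem_nb, not_not]
    exact ⟨fun h => ⟨hH0 h, h⟩, fun h => h.2⟩
  have sw : ∀ x y, x ≠ u → ¬ H.Adj u x → H.Adj x y → ¬ H0.Adj x y → y ∈ insert v (nb H v) := by
    intro x y hx ha hxy hn
    by_contra hy
    rw [mem_insert, mem_nb, not_or] at hy
    have hvx : v ≠ x := by
      rintro rfl
      have := full v hx ha
      omega
    obtain ⟨K1, k0, k1⟩ := ex_del H hxy
    obtain ⟨K2, k2⟩ := ex_add K1 hx.symm
    obtain ⟨K3, k3⟩ := ex_add K2 (Ne.symm hy.1)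
    have n2 : ¬ K1.Adj u x := fun h => ha ((k1 _ _).2 (Or.inl h))
    have n3 : ¬ K2.Adj v y := by
      rw [k2]
      rintro (h | h | h)
      · exact hy.2 ((k1 _ _).2 (Or.inl h))
      · exact hxy.ne h.2.symm
      · exact hvx h.1
    refine no K3 u v (fun c d h => ?_) (fun c => ?_) huv
    · rw [k3, k2]
      rcases (k1 c d).1 (hH0 h) with e | ⟨rfl, rfl⟩ | ⟨rfl, rfl⟩
      · exact Or.inl (Or.inl e)
      · exact absurd h hn
      · exact absurd h.symm hn
    · rw [nb_add (Ne.symm hy.1) n3 k3, nb_add hx.symm n2 k2, nb_add hxy.ne k0 k1]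
      omega
  have cnt := card_mul_le_card_mul (s := (insert u (nb H u))ᶜ) (t := insert v (nb H v))
    (fun x y => H.Adj x y ∧ ¬ H0.Adj x y) (m := g0) (n := g1) (by
      intro x hx
      rw [mem_compl, mem_insert, mem_nb, not_or] at hx
      have e1 := sub x
      have e2 := full x hx.1 hx.2
      have e3 := h0 x
      refine le_trans (by omega : g0 ≤ ((nb H x).filter fun y => ¬ H0.Adj x y).card)
        (card_le_card fun y hy => ?_)
      rw [mem_filter, mem_nb] at hy
      exact mem_filter.2 ⟨sw x y hx.1 hx.2 hy.1 hy.2, hy⟩) (by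
      intro y _
      have e1 := sub y
      have e2 := hHD y
      have e3 := h1 y
      have e4 : (nb H0 y).card ≤ (nb H y).card := by omega
      refine le_trans (card_le_card fun x hx => ?_)
        (by omega : ((nb H y).filter fun x => ¬ H0.Adj y x).card ≤ g1)
      have := (mem_filter.1 hx).2
      exact mem_filter.2 ⟨mem_nb.2 this.1.symm, fun h => this.2 h.symm⟩)
  rw [card_compl] at cnt
  have a1 := card_insert_le u (nb H u)
  have a2 := card_insert_le v (nb H v)
  have b1 : (Fintype.card V - D) * g0 ≤ (Fintype.card V - (insert u (nb H u)).card) * g0 :=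
    Nat.mul_le_mul_right _ (by omega)
  have b2 : (insert v (nb H v)).card * g1 ≤ D * g1 := Nat.mul_le_mul_right _ (by omega)
  omega

end Pool.Agent.MP_1dbd31_co.h49
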