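import Pool.Agent.MP_1dbd31_co.h49.Core
import Mathlib.LinearAlgebra.Projectivization.Cardinality
import Mathlib.GroupTheory.Index
import Mathlib.Data.Matrix.Mul

/-! Regular graphs with constant codegree built from affine spaces. -/

namespace Pool.Agent.MP_1dbd31_co.h49

open Finset
open scoped Classical

theorem fib {A B : Type} [AddCommGroup A] [AddCommGroup B] [Fintype A] [Fintype B] (f : A →+ B)
    (hf : Function.Surjective f) (c : B) :
    (univ.filter fun a => f a = c).card * Fintype.card B = Fintype.card A := by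
  rw [← card_univ (α := A),
    card_eq_sum_card_fiberwise (f := f) (s := univ) (t := univ) (by simp), sum_congr rfl fun b _ => AddMonoidHom.card_fiber_eq_of_mem_range f (hf b) (hf c)]
  simp [mul_comm]

variable {F : Type} [Field F] [Fintype F] {m : ℕ}

omit [Fintype F] in
theorem dot_one {a : Fin m → F} (ha : a ≠ 0) : ∃ z, a ⬝ᵥ z = 1 := by
  obtain ⟨i, hi⟩ := Function.ne_iff.1 ha
  exact ⟨Pi.single i (a i)⁻¹, by simp [mul_inv_cancel₀ hi]⟩

theorem cnt1 {a : Fin (m + 1) → F} (ha : a ≠ 0) (c : F) :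
    (univ.filter fun z => a ⬝ᵥ z = c).card = Fintype.card F ^ m := by
  obtain ⟨z, hz⟩ := dot_one ha
  have := fib (AddMonoidHom.mk' (fun z => a ⬝ᵥ z) (dotProduct_add a))
    (fun c => ⟨c • z, by simp [hz]⟩) c
  rw [Fintype.card_fun, Fintype.card_fin, pow_succ] at this
  exact Nat.eq_of_mul_eq_mul_right Fintype.card_pos this

omit [Fintype F] in
theorem dot_sep {p p' : Projectivization F (Fin m → F)} (h : p ≠ p') :
    ∃ z, p.rep ⬝ᵥ z = 0 ∧ p'.rep ⬝ᵥ z = 1 := by
  obtain ⟨u, hu⟩ := dot_one p.rep_nonzero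
  have h1 : p'.rep - (p'.rep ⬝ᵥ u) • p.rep ≠ 0 := by
    intro e
    apply h
    rw [← p.mk_rep, ← p'.mk_rep, eq_comm, Projectivization.mk_eq_mk_iff']
    exact ⟨_, (sub_eq_zero.1 e).symm⟩
  obtain ⟨v, hv⟩ := dot_one h1
  refine ⟨v - (p.rep ⬝ᵥ v) • u, by simp [hu], ?_⟩
  simp only [sub_dotProduct, smul_dotProduct, dotProduct_sub, dotProduct_smul, smul_eq_mul] at hv ⊢
  linear_combination hv

theorem cnt2 {p p' : Projectivization F (Fin (m + 2) → F)} (h : p ≠ p') (c c' : F) :
    (univ.filter fun z => p.rep ⬝ᵥ z = c ∧ p'.rep ⬝ᵥ z = c').card = Fintype.card F ^ m := by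
  obtain ⟨u, u1, u2⟩ := dot_sep h
  obtain ⟨v, v1, v2⟩ := dot_sep h.symm
  have := fib (AddMonoidHom.mk' (fun z => (p.rep ⬝ᵥ z, p'.rep ⬝ᵥ z)) (by simp))
    (fun c => ⟨c.1 • v + c.2 • u, by simp [u1, u2, v1, v2]⟩) (c, c')
  rw [Fintype.card_fun, Fintype.card_fin, Fintype.card_prod, pow_add, sq] at this
  simp only [AddMonoidHom.mk'_apply, Prod.mk.injEq] at this
  exact Nat.eq_of_mul_eq_mul_right (Nat.mul_pos Fintype.card_pos Fintype.card_pos) this

theorem cnt3 [Fintype (Projectivization F (Fin (m + 1) → F))] (v : Fin (m + 1) → F) :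
    ∑ i ∈ range m, Fintype.card F ^ i ≤
      (univ.filter fun p : Projectivization F (Fin (m + 1) → F) => p.rep ⬝ᵥ v = 0).card := by
  have h1 : Fintype.card F ^ m ≤ (univ.filter fun z : Fin (m + 1) → F => v ⬝ᵥ z = 0).card := by
    by_cases hv : v = 0
    · simp only [hv, zero_dotProduct, filter_true, card_univ, Fintype.card_fun, Fintype.card_fin]
      exact Nat.pow_le_pow_right Fintype.card_pos (by omega)
    · exact (cnt1 hv 0).ge
  have h2 : (univ.filter fun z : Fin (m + 1) → F => v ⬝ᵥ z = 0) ⊆ insert 0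
      (((univ.filter fun p : Projectivization F (Fin (m + 1) → F) => p.rep ⬝ᵥ v = 0) ×ˢ
        (univ.erase (0 : F))).image fun x => x.2 • x.1.rep) := by
    intro z hz
    by_cases h0 : z = 0
    · simp [h0]
    · obtain ⟨a, ha⟩ := Projectivization.exists_smul_eq_mk_rep F z h0
      refine mem_insert_of_mem (mem_image.2 ⟨(Projectivization.mk F z h0, (a⁻¹ : Fˣ)), ?_, ?_⟩)
      · have := (mem_filter.1 hz).2
        simp [← ha, Units.smul_def, dotProduct_comm z, this]
      · simp [← ha, Units.smul_def]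
  have h3 := (card_le_card h2).trans ((card_insert_le _ _).trans
    (Nat.add_le_add_right card_image_le 1))
  rw [card_product, card_erase_of_mem (mem_univ _), card_univ] at h3
  have q2 : 2 ≤ Fintype.card F := Fintype.one_lt_card
  have h4 := Nat.geomSum_eq q2 m
  rw [h4]
  exact Nat.div_le_of_le_mul (by rw [mul_comm]; omega)

theorem wallis (s : ℕ) : ∃ (P : Type) (_ : Fintype P) (H : SimpleGraph P),
    Fintype.card P = (∑ i ∈ range (s + 2), Fintype.card F ^ i + 1) * Fintype.card F ^ (s + 2) ∧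
    (∀ a, (nb H a).card = (∑ i ∈ range (s + 2), Fintype.card F ^ i) * Fintype.card F ^ (s + 1)) ∧
    ∀ a b, (∑ i ∈ range (s + 1), Fintype.card F ^ i) * Fintype.card F ^ (s + 1)
      ≤ (nb H a ∩ nb H b).card := by
  let Q := Projectivization F (Fin (s + 2) → F)
  have : Fintype Q := Fintype.ofFinite Q
  have hQ : Fintype.card Q = ∑ i ∈ range (s + 2), Fintype.card F ^ i := by
    simpa [Nat.card_eq_fintype_card] using
      Projectivization.card_of_finrank F (Fin (s + 2) → F) (n := s + 2) (by simp)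
  obtain ⟨L, L1, L2⟩ : ∃ L : Option Q → Option Q → Q, (∀ i j j', j ≠ i → j' ≠ i → j ≠ j' →
      L i j ≠ L i j') ∧ ∀ i p, ∃ j, j ≠ i ∧ L i j = p := by
    have e : ∀ i j : Option Q, j ≠ i →
        some ((Equiv.swap i none j).getD (Classical.arbitrary Q)) = Equiv.swap i none j := by
      intro i j h
      cases e : Equiv.swap i none j with
      | none => exact absurd (by simpa [Equiv.swap_apply_eq_iff] using e) h
      | some p => rfl
    refine ⟨fun i j => (Equiv.swap i none j).getD (Classical.arbitrary Q), ?_, fun i p => ?_⟩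
    · intro i j j' h h' hne he
      exact hne ((Equiv.swap i none).injective (by rw [← e i j h, ← e i j' h']; exact congrArg some he))
    · exact ⟨Equiv.swap i none (some p), by simp [Equiv.swap_apply_eq_iff], by simp⟩
  let H : SimpleGraph (Option Q × (Fin (s + 2) → F)) :=
    { Adj := fun x y => y.1 ≠ x.1 ∧ (L y.1 x.1).rep ⬝ᵥ y.2 = (L x.1 y.1).rep ⬝ᵥ x.2
      symm := ⟨fun x y h => ⟨h.1.symm, h.2.symm⟩⟩
      loopless := ⟨fun x h => h.1 rfl⟩ }
  have hA : ∀ x y, y ∈ nb H x ↔
      y.1 ≠ x.1 ∧ (L y.1 x.1).rep ⬝ᵥ y.2 = (L x.1 y.1).rep ⬝ᵥ x.2 := fun _ _ => mem_nb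
  have cs : ∀ S : Finset (Option Q × (Fin (s + 2) → F)),
      S.card = ∑ j, (univ.filter fun y => (j, y) ∈ S).card := by
    intro S
    simp only [card_filter]
    rw [← Fintype.sum_prod_type' fun j y => if (j, y) ∈ S then 1 else 0]
    simp
  have sub : ∀ (S : Finset (Option Q × (Fin (s + 2) → F))) (T : Finset (Option Q)) (c : ℕ),
      (∀ j ∈ T, c ≤ (univ.filter fun y => (j, y) ∈ S).card) → T.card * c ≤ S.card := by
    intro S T c h
    rw [cs, ← smul_eq_mul]
    exact (card_nsmul_le_sum _ _ _ h).trans (sum_le_sum_of_subset (subset_univ T))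
  refine ⟨_, inferInstance, H, by simp [hQ], fun a => ?_, fun a b => ?_⟩
  · rw [cs, ← sum_erase (a := a.1) _ (by simp [hA]), sum_congr rfl (g := fun _ =>
      Fintype.card F ^ (s + 1))]
    · simp [hQ]
    · intro j hj
      rw [← cnt1 (L j a.1).rep_nonzero ((L a.1 j).rep ⬝ᵥ a.2)]
      simp [hA, ne_of_mem_erase hj]
  · by_cases h : a.1 = b.1
    · refine le_trans (Nat.mul_le_mul_right _ ((cnt3 (a.2 - b.2)).trans ?_))
        (sub _ (univ.filter fun j => j ≠ a.1 ∧ (L a.1 j).rep ⬝ᵥ (a.2 - b.2) = 0) _ fun j hj => ?_)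
      · refine card_le_card_of_surjOn (L a.1) fun p hp => ?_
        obtain ⟨j, j1, rfl⟩ := L2 a.1 p
        exact ⟨j, by simpa [j1] using hp, rfl⟩
      · have hj := (mem_filter.1 hj).2
        rw [← cnt1 (L j a.1).rep_nonzero ((L a.1 j).rep ⬝ᵥ a.2)]
        rw [dotProduct_sub, sub_eq_zero] at hj
        simp [hA, ← h, hj.1, hj.2]
    · refine le_trans (le_of_eq ?_) (sub _ ((univ.erase a.1).erase b.1) (Fintype.card F ^ s)
        fun j hj => ?_)
      · rw [card_erase_of_mem (by simp [Ne.symm h]), card_erase_of_mem (mem_univ _), card_univ,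
          Fintype.card_option, hQ, sum_range_succ' _ (s + 1)]
        simp only [pow_succ, ← sum_mul, pow_zero, Nat.add_sub_cancel]
        ring
      · have j1 := ne_of_mem_erase hj
        have j2 := ne_of_mem_erase (mem_of_mem_erase hj)
        rw [← cnt2 (L1 j a.1 b.1 j2.symm j1.symm h) ((L a.1 j).rep ⬝ᵥ a.2) ((L b.1 j).rep ⬝ᵥ b.2)]
        simp [hA, j1, j2]

end Pool.Agent.MP_1dbd31_co.h49
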